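import Pool.Agent.Lib.MP_c4588b_lc.Data.States

set_option autoImplicit false
set_option maxRecDepth 100000

namespace Pool.Agent.PW

namespace I5

def n0 : List (ℕ × ℕ) := [
(0xeba82033aa70048c5f3a122dd278048ef7111,0x830830830c0700c2105105014170c2102104018111c72003060510618040300cd),
(0xea9c01438d1c804d0f2f122bfd40448ef7111,0x20810810820420820301e2492803010210210410401c111472070100310610618050600fd),
(0xea9c01436fc9044d49d6012fa7b04883f7c11,0x42042081081082080b05c728900c04209240307011031030c401c1610414518050440ed),
(0x3aa70004dbf24152bfd40488ef7111,0x928a00c0b041002002041002041002002040000840c30c210302005106146180507c104),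
(0xea9c01435275804d49d601352758048dbe402,0x41082081082042080b028824900c022092403070824900c050820820c20820c0905c0ed),
(0xe23b0062bfd404883f7c11,0x4100104101c0b083100301c41802008063),
(0x39bc6448e34721238d1c844e171e812e30504880d3601,0x1031041441050200c0c41441041050202420a24a0101824924a010280c20c40c30c408402821105145145140704c14e),
(0x3aa70050d3260032bfd404483f7c11,0x1081082080600820820830140f18800801085180301c084),
(0xe34721138d1c844dbf2415293d6c4483f7c11,0x828924a24a01c2320a249289280711c1002040081002002040081040081002040081002002040081040082400051861c71461871c0a1044146145144146145140c01c245),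
(0xea9c0123aa70048e4be802293d6c488ef7111,0x40c51050140a0c510510050604104105014110830830c30c07048514618040640d5),
(0x3aa70050d67298323bdc4048ef7101,0x41082080501420820c04000518020085180203006c),
(0xe4be811392fa044dbf2415267d98448b4ca11,0x828928928060dc828928928060f4100204008100204104104008100204008004200204004207c001451c51861861c090c45145106145185180a04c1f5),
(0x385c7a08e171e82385c7a04e171e8134c9804870b8f41,0x1041041041050200c1041041041050201024924a0102824924a010040c30c310410410090544104104104140802014e),
(0x385c7a44e171e91385c7a44e171e9134c980507b2b801,0x828924a24828924a02c6524828924a20a249280b138920a24928828924a02c6a20a24928920a249280b124008108104204204204008108104204204204008108104204204204008108104204204204301bc4144145105105144144145105105141401c386),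
(0xe6f190139bc6404dbf24152ebd144478f8711,0x92892804048928928040081041002041040081002041040081002054001c71c8200503c31431450c5140807c155),
(0x39bc644ce6f1902317ce84c754e011,0x820c20c301803104105010060430820810c07010314414040240ac),
(0x39bc6458c5f3a112ebd14047ca2e01,0x41040041041028041890080e1c800809105140304008c),
(0x39bc6458e6f19012bfd40447378c81,0x10400410400410410300824a0080b1062003048410414040240ac),
(0xe6f1916317ce8487378c81,0x1041001040041041030060440c4100502c4104140401c0ab),
(0x385c7a08e171e82385c7a08e171e81385c7a046993011,0x104104104105020081041041041050200c1041041041050201024924a0102824924a010040c30c3104104100905414e),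
(0x3aa70050e6f191336fc9048c5f3a11,0x208200208108208008208108108108208170e810c30830820c20c30820c20c3044220850c51031431440c5030191491c914824070ac1dc)]

theorem c0 : run 154912867200 I_S6 n0 I_S5 = true := by decide +kernel

theorem good (h : ∀ s ∈ I_S6, Good 154912867200 s) : ∀ s ∈ I_S5, Good 154912867200 s :=
  run_sound c0 (h)

end I5

end Pool.Agent.PW
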