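import Pool.Agent.Lib.MP_c4588b_lc.Data.A0
import Pool.Agent.Lib.MP_c4588b_lc.Data.B0
import Pool.Agent.Lib.MP_c4588b_lc.Data.C0
import Pool.Agent.Lib.MP_c4588b_lc.Data.C1
import Pool.Agent.Lib.MP_c4588b_lc.Data.C2
import Pool.Agent.Lib.MP_c4588b_lc.Data.D0
import Pool.Agent.Lib.MP_c4588b_lc.Data.D1
import Pool.Agent.Lib.MP_c4588b_lc.Data.E0
import Pool.Agent.Lib.MP_c4588b_lc.Data.E1
import Pool.Agent.Lib.MP_c4588b_lc.Data.F0
import Pool.Agent.Lib.MP_c4588b_lc.Data.F1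
import Pool.Agent.Lib.MP_c4588b_lc.Data.G0
import Pool.Agent.Lib.MP_c4588b_lc.Data.G1
import Pool.Agent.Lib.MP_c4588b_lc.Data.G2
import Pool.Agent.Lib.MP_c4588b_lc.Data.H0
import Pool.Agent.Lib.MP_c4588b_lc.Data.H1
import Pool.Agent.Lib.MP_c4588b_lc.Data.H2
import Pool.Agent.Lib.MP_c4588b_lc.Data.H3
import Pool.Agent.Lib.MP_c4588b_lc.Data.I0
import Pool.Agent.Lib.MP_c4588b_lc.Data.I1
import Pool.Agent.Lib.MP_c4588b_lc.Data.I2
import Pool.Agent.Lib.MP_c4588b_lc.Data.I3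
import Pool.Agent.Lib.MP_c4588b_lc.Data.I4
import Pool.Agent.Lib.MP_c4588b_lc.Data.I5

set_option autoImplicit false
set_option maxRecDepth 100000

namespace Pool.Agent.PW

theorem A_good : ∀ s ∈ rootStk 1729728 83805321600 10475665200 7, Good 150151201200 s := (A0.good (fun s hs => absurd hs (by simp [A_S1])))

theorem A_region {ι : Type*} [DecidableEq ι] [Nonempty ι] (s : Finset ι) (a : ι → ℝ)
    (hpos : ∀ i ∈ s, 0 < a i) (hc : ∀ i ∈ s, sat 1729728 (a i))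
    (hex : (∃ i ∈ s, a i ≤ ((2 : ℕ) : ℝ) / ((1 : ℕ) : ℝ)) ∨ 2 = 16 * 1 ∧ s.Nonempty)
    (hD : (∑ i ∈ s, 1 / a i) ≤ 5 / 6) : SchOn s a :=
  region_all (c0 := 1729728) (w0 := 83805321600) (w := 10475665200) (n := 7) (BS := 150151201200) (θ := 16) (hn := 2) (hd := 1)
    (by norm_num) (by norm_num) (by norm_num [SC]) (by norm_num [SC]) (by norm_num [SC]) (by norm_num)
    A_good (by norm_num [QS]) (by norm_num) s a hpos hc hex hD

theorem B_good : ∀ s ∈ rootStk 2882881 62078016000 11972188800 8, Good 151647724800 s := (B0.good (fun s hs => absurd hs (by simp [B_S1])))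

theorem B_region {ι : Type*} [DecidableEq ι] [Nonempty ι] (s : Finset ι) (a : ι → ℝ)
    (hpos : ∀ i ∈ s, 0 < a i) (hc : ∀ i ∈ s, sat 2882881 (a i))
    (hex : (∃ i ∈ s, a i ≤ ((27 : ℕ) : ℝ) / ((10 : ℕ) : ℝ)) ∨ 27 = 14 * 10 ∧ s.Nonempty)
    (hD : (∑ i ∈ s, 1 / a i) ≤ 5 / 6) : SchOn s a :=
  region_all (c0 := 2882881) (w0 := 62078016000) (w := 11972188800) (n := 8) (BS := 151647724800) (θ := 14) (hn := 27) (hd := 10)
    (by norm_num) (by norm_num) (by norm_num [SC]) (by norm_num [SC]) (by norm_num [SC]) (by norm_num)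
    B_good (by norm_num [QS]) (by norm_num) s a hpos hc hex hD

theorem C_good : ∀ s ∈ rootStk 3891888 55870214400 8380532160 11, Good 148056068160 s := (C0.good (C1.good (C2.good (fun s hs => absurd hs (by simp [C_S3])))))

theorem C_region {ι : Type*} [DecidableEq ι] [Nonempty ι] (s : Finset ι) (a : ι → ℝ)
    (hpos : ∀ i ∈ s, 0 < a i) (hc : ∀ i ∈ s, sat 3891888 (a i))
    (hex : (∃ i ∈ s, a i ≤ ((3 : ℕ) : ℝ) / ((1 : ℕ) : ℝ)) ∨ 3 = 20 * 1 ∧ s.Nonempty)
    (hD : (∑ i ∈ s, 1 / a i) ≤ 5 / 6) : SchOn s a :=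
  region_all (c0 := 3891888) (w0 := 55870214400) (w := 8380532160) (n := 11) (BS := 148056068160) (θ := 20) (hn := 3) (hd := 1)
    (by norm_num) (by norm_num) (by norm_num [SC]) (by norm_num [SC]) (by norm_num [SC]) (by norm_num)
    C_good (by norm_num [QS]) (by norm_num) s a hpos hc hex hD

theorem D_good : ∀ s ∈ rootStk 4324321 47888755200 13967553600 8, Good 153643089600 s := (D0.good (D1.good (fun s hs => absurd hs (by simp [D_S2]))))

theorem D_region {ι : Type*} [DecidableEq ι] [Nonempty ι] (s : Finset ι) (a : ι → ℝ)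
    (hpos : ∀ i ∈ s, 0 < a i) (hc : ∀ i ∈ s, sat 4324321 (a i))
    (hex : (∃ i ∈ s, a i ≤ ((7 : ℕ) : ℝ) / ((2 : ℕ) : ℝ)) ∨ 7 = 12 * 2 ∧ s.Nonempty)
    (hD : (∑ i ∈ s, 1 / a i) ≤ 5 / 6) : SchOn s a :=
  region_all (c0 := 4324321) (w0 := 47888755200) (w := 13967553600) (n := 8) (BS := 153643089600) (θ := 12) (hn := 7) (hd := 2)
    (by norm_num) (by norm_num) (by norm_num [SC]) (by norm_num [SC]) (by norm_num [SC]) (by norm_num)
    D_good (by norm_num [QS]) (by norm_num) s a hpos hc hex hD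

theorem E_good : ∀ s ∈ rootStk 5045040 44696171520 13967553600 8, Good 153643089600 s := (E0.good (E1.good (fun s hs => absurd hs (by simp [E_S2]))))

theorem E_region {ι : Type*} [DecidableEq ι] [Nonempty ι] (s : Finset ι) (a : ι → ℝ)
    (hpos : ∀ i ∈ s, 0 < a i) (hc : ∀ i ∈ s, sat 5045040 (a i))
    (hex : (∃ i ∈ s, a i ≤ ((15 : ℕ) : ℝ) / ((4 : ℕ) : ℝ)) ∨ 15 = 12 * 4 ∧ s.Nonempty)
    (hD : (∑ i ∈ s, 1 / a i) ≤ 5 / 6) : SchOn s a :=
  region_all (c0 := 5045040) (w0 := 44696171520) (w := 13967553600) (n := 8) (BS := 153643089600) (θ := 12) (hn := 15) (hd := 4)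
    (by norm_num) (by norm_num) (by norm_num [SC]) (by norm_num [SC]) (by norm_num [SC]) (by norm_num)
    E_good (by norm_num [QS]) (by norm_num) s a hpos hc hex hD

theorem F_good : ∀ s ∈ rootStk 5405400 41902660800 11972188800 10, Good 151647724800 s := (F0.good (F1.good (fun s hs => absurd hs (by simp [F_S2]))))

theorem F_region {ι : Type*} [DecidableEq ι] [Nonempty ι] (s : Finset ι) (a : ι → ℝ)
    (hpos : ∀ i ∈ s, 0 < a i) (hc : ∀ i ∈ s, sat 5405400 (a i))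
    (hex : (∃ i ∈ s, a i ≤ ((4 : ℕ) : ℝ) / ((1 : ℕ) : ℝ)) ∨ 4 = 14 * 1 ∧ s.Nonempty)
    (hD : (∑ i ∈ s, 1 / a i) ≤ 5 / 6) : SchOn s a :=
  region_all (c0 := 5405400) (w0 := 41902660800) (w := 11972188800) (n := 10) (BS := 151647724800) (θ := 14) (hn := 4) (hd := 1)
    (by norm_num) (by norm_num) (by norm_num [SC]) (by norm_num [SC]) (by norm_num [SC]) (by norm_num)
    F_good (by norm_num [QS]) (by norm_num) s a hpos hc hex hD

theorem G_good : ∀ s ∈ rootStk 5765761 37246809600 15237331200 8, Good 154912867200 s := (G0.good (G1.good (G2.good (fun s hs => absurd hs (by simp [G_S3])))))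

theorem G_region {ι : Type*} [DecidableEq ι] [Nonempty ι] (s : Finset ι) (a : ι → ℝ)
    (hpos : ∀ i ∈ s, 0 < a i) (hc : ∀ i ∈ s, sat 5765761 (a i))
    (hex : (∃ i ∈ s, a i ≤ ((9 : ℕ) : ℝ) / ((2 : ℕ) : ℝ)) ∨ 9 = 11 * 2 ∧ s.Nonempty)
    (hD : (∑ i ∈ s, 1 / a i) ≤ 5 / 6) : SchOn s a :=
  region_all (c0 := 5765761) (w0 := 37246809600) (w := 15237331200) (n := 8) (BS := 154912867200) (θ := 11) (hn := 9) (hd := 2)
    (by norm_num) (by norm_num) (by norm_num [SC]) (by norm_num [SC]) (by norm_num [SC]) (by norm_num)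
    G_good (by norm_num [QS]) (by norm_num) s a hpos hc hex hD

theorem H_good : ∀ s ∈ rootStk 6486480 33522128640 12893126400 10, Good 152568662400 s := (H0.good (H1.good (H2.good (H3.good (fun s hs => absurd hs (by simp [H_S4]))))))

theorem H_region {ι : Type*} [DecidableEq ι] [Nonempty ι] (s : Finset ι) (a : ι → ℝ)
    (hpos : ∀ i ∈ s, 0 < a i) (hc : ∀ i ∈ s, sat 6486480 (a i))
    (hex : (∃ i ∈ s, a i ≤ ((5 : ℕ) : ℝ) / ((1 : ℕ) : ℝ)) ∨ 5 = 13 * 1 ∧ s.Nonempty)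
    (hD : (∑ i ∈ s, 1 / a i) ≤ 5 / 6) : SchOn s a :=
  region_all (c0 := 6486480) (w0 := 33522128640) (w := 12893126400) (n := 10) (BS := 152568662400) (θ := 13) (hn := 5) (hd := 1)
    (by norm_num) (by norm_num) (by norm_num [SC]) (by norm_num [SC]) (by norm_num [SC]) (by norm_num)
    H_good (by norm_num [QS]) (by norm_num) s a hpos hc hex hD

theorem I_good : ∀ s ∈ rootStk 7207201 15237331200 15237331200 10, Good 154912867200 s := (I0.good (I1.good (I2.good (I3.good (I4.good (I5.good (fun s hs => absurd hs (by simp [I_S6]))))))))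

theorem I_region {ι : Type*} [DecidableEq ι] [Nonempty ι] (s : Finset ι) (a : ι → ℝ)
    (hpos : ∀ i ∈ s, 0 < a i) (hc : ∀ i ∈ s, sat 7207201 (a i))
    (hex : (∃ i ∈ s, a i ≤ ((11 : ℕ) : ℝ) / ((1 : ℕ) : ℝ)) ∨ 11 = 11 * 1 ∧ s.Nonempty)
    (hD : (∑ i ∈ s, 1 / a i) ≤ 5 / 6) : SchOn s a :=
  region_all (c0 := 7207201) (w0 := 15237331200) (w := 15237331200) (n := 10) (BS := 154912867200) (θ := 11) (hn := 11) (hd := 1)
    (by norm_num) (by norm_num) (by norm_num [SC]) (by norm_num [SC]) (by norm_num [SC]) (by norm_num)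
    I_good (by norm_num [QS]) (by norm_num) s a hpos hc hex hD

end Pool.Agent.PW
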